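import Pool.Agent.H.MP_763dcb_co.Sound

namespace Pool.Agent.Results.MP_763dcb_co.No

open Pool.Agent.H.MP_763dcb_co

variable {V : Type*}

/-- `S` is dominating: every vertex outside `S` has a neighbour in `S`. -/
def IsDom (G : SimpleGraph V) (S : Finset V) : Prop := ∀ v, v ∉ S → ∃ u ∈ S, G.Adj v u

/-- `S` is independent. -/
def IsInd (G : SimpleGraph V) (S : Finset V) : Prop := ∀ u ∈ S, ∀ v ∈ S, ¬ G.Adj u v

/-- The independent domination number. -/
noncomputable def iNum (G : SimpleGraph V) : ℕ :=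
  sInf {k | ∃ S : Finset V, IsInd G S ∧ IsDom G S ∧ S.card = k}

/-- `M` is a set of pairwise vertex-disjoint edges of `G`. -/
def IsMatch (G : SimpleGraph V) (M : Finset (Sym2 V)) : Prop :=
  (∀ e ∈ M, e ∈ G.edgeSet) ∧ ∀ e ∈ M, ∀ f ∈ M, e ≠ f → ∀ v, v ∈ e → v ∉ f

/-- `M` is a matching to which no further edge of `G` can be added. -/
def IsMaximalMatch [DecidableEq V] (G : SimpleGraph V) (M : Finset (Sym2 V)) : Prop :=
  IsMatch G M ∧ ∀ e ∈ G.edgeSet, e ∉ M → ¬ IsMatch G (insert e M)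

/-- The saturation number. -/
noncomputable def satNum [DecidableEq V] (G : SimpleGraph V) : ℕ :=
  sInf {k | ∃ M : Finset (Sym2 V), IsMaximalMatch G M ∧ M.card = k}

def adjB (a b : Fin 50) : Bool := (a != b) && (mask a.val).testBit b.val

lemma adjB_symm : ∀ a b, adjB a b = adjB b a := by decide +kernel

def G0 : SimpleGraph (Fin 50) where
  Adj a b := adjB a b = true
  symm := ⟨fun a b h => by rw [adjB_symm]; exact h⟩
  loopless := ⟨fun a h => by simp [adjB] at h⟩

instance : DecidableRel G0.Adj := fun a b => inferInstanceAs (Decidable (adjB a b = true))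

lemma reg : G0.IsRegularOfDegree 3 := by
  intro v
  rw [← SimpleGraph.card_neighborFinset_eq_degree, SimpleGraph.neighborFinset_eq_filter]
  revert v
  decide +kernel

lemma mask_self : ∀ x : Fin 50, (mask x.val).testBit x.val = true := by decide +kernel

lemma dom16 (S : Finset (Fin 50)) (h : IsDom G0 S) : 16 ≤ S.card := by
  have := dom_ge (S.map Fin.valEmbedding) (by
      intro r hr
      obtain ⟨a, _, rfl⟩ := Finset.mem_map.mp hr
      exact a.2) (by
      intro x hx
      by_cases hS : (⟨x, hx⟩ : Fin 50) ∈ S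
      · exact ⟨x, Finset.mem_map.mpr ⟨_, hS, rfl⟩, mask_self ⟨x, hx⟩⟩
      · obtain ⟨u, hu, ha⟩ := h _ hS
        refine ⟨u.val, Finset.mem_map.mpr ⟨_, hu, rfl⟩, ?_⟩
        have ha' : adjB u ⟨x, hx⟩ = true := ha.symm
        simp only [adjB, Bool.and_eq_true] at ha'
        exact ha'.2)
  simpa using this

def S0 : Finset (Fin 50) := {0, 1, 3, 8, 15, 19, 22, 23, 27, 31, 34, 39, 41, 42, 45, 48}

lemma S0_ok : IsInd G0 S0 ∧ IsDom G0 S0 ∧ S0.card = 16 := by
  unfold IsInd IsDom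
  decide +kernel

def M0 : Finset (Sym2 (Fin 50)) :=
  {s(3, 6), s(23, 26), s(22, 20), s(27, 28), s(2, 0), s(8, 9), s(15, 18), s(11, 19), s(46, 45),
    s(42, 40), s(37, 39), s(38, 34), s(1, 5), s(31, 32), s(47, 48)}

lemma M0_match : IsMatch G0 M0 := by
  unfold IsMatch
  decide +kernel

lemma M0_card : M0.card = 15 := by decide +kernel

lemma M0_cover : ∀ a b : Fin 50, G0.Adj a b → ∃ f ∈ M0, a ∈ f ∨ b ∈ f := by decide +kernel

lemma M0_max : IsMaximalMatch G0 M0 := by
  refine ⟨M0_match, fun e he hn hm => ?_⟩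
  induction e using Sym2.ind with
  | _ a b =>
    obtain ⟨f, hf, hab⟩ := M0_cover a b he
    have hne : s(a, b) ≠ f := fun h => hn (h ▸ hf)
    have := hm.2 _ (Finset.mem_insert_self _ _) f (Finset.mem_insert_of_mem hf) hne
    rcases hab with h | h
    · exact this a (Sym2.mem_mk_left _ _) h
    · exact this b (Sym2.mem_mk_right _ _) h

theorem result : ∃ (G : SimpleGraph (Fin 50)) (_ : DecidableRel G.Adj),
    G.IsRegularOfDegree 3 ∧ (∃ M, IsMaximalMatch G M ∧ M.card = 15) ∧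
      (∀ S, IsDom G S → 16 ≤ S.card) ∧ satNum G < iNum G := by
  refine ⟨G0, inferInstance, reg, ⟨M0, M0_max, M0_card⟩, dom16, ?_⟩
  have h1 : satNum G0 ≤ 15 := Nat.sInf_le ⟨M0, M0_max, M0_card⟩
  have h2 : 16 ≤ iNum G0 := by
    have hne : ({k | ∃ S : Finset (Fin 50), IsInd G0 S ∧ IsDom G0 S ∧ S.card = k}).Nonempty :=
      ⟨16, S0, S0_ok⟩
    obtain ⟨S, _, hd, hc⟩ := Nat.sInf_mem hne
    unfold iNum
    rw [← hc]
    exact dom16 S hd
  omega

end Pool.Agent.Results.MP_763dcb_co.No
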